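import Pool.Agent.Q246.HW.Defs
import Pool.Agent.Q246.NC.Hor
import Pool.Agent.Q246.NC.Euler

set_option autoImplicit false

/-!
# Hasse-Weil L-functions attached to newforms: the completed L-function
-/

namespace Pool.Agent.Q246.HW

open UpperHalfPlane hiding I
open MatrixGroups CongruenceSubgroup Filter Topology Complex
open Pool.Agent.Q246.NC
open W388 (IsNewfC lamC lamC_zero)
open scoped ComplexConjugate

theorem conv (g : Newform) : ∃ η : ℂ, IsNewfC g.N (g.k : ℤ) g.ψ g.f η := by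
  have hg := g.isNewform
  have hk := g.k_pos
  obtain ⟨w, hw, hfr⟩ := hg.fricke
  refine ⟨w * I ^ g.k, fun γ hγ τ => ?_, hg.one, hg.mul, fun p j hp => ?_, hg.real, ?_, fun τ τ' τc h2 h3 => ?_⟩
  · rw [zpow_natCast]
    exact hg.neb γ hγ τ
  · have h2 : ((g.k : ℤ) - 1) = ((g.k - 1 : ℕ) : ℤ) := by omega
    rw [h2, zpow_natCast]
    exact hg.pow p j hp
  · rw [norm_mul, norm_pow, Complex.norm_I, one_pow, mul_one, hw]
  · rw [zpow_natCast, div_pow, hfr τ τ' τc h2 h3]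
    have h4 : (I : ℂ) ^ g.k ≠ 0 := pow_ne_zero _ Complex.I_ne_zero
    field_simp

/-- the local factors in the two normalisations -/
theorem euler_eq (g : Newform) {i : ℕ} (h1 : g.k ≤ i + 1) (h2 : 2 ∣ i + 1 - g.k) {p : ℕ} (hp : 0 < p) (s : ℂ) :
    1 - nco g.f p * (p : ℂ) ^ (-s) + g.ψ (p : ZMod g.N) * ((p : ℂ) ^ (-s)) ^ 2 =
      g.euler i p ((p : ℂ) ^ (-(s + i / 2))) := by
  have hp0 : (p : ℂ) ≠ 0 := by exact_mod_cast hp.ne'
  have htw : (g.twist i : ℂ) = (i + 1 - g.k) / 2 := by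
    unfold Newform.twist
    rw [Nat.cast_div h2 (by norm_num), Nat.cast_sub h1]
    push_cast
    rfl
  have e1 : (((p : ℝ) ^ (-(((g.k : ℝ) - 1) / 2)) : ℝ) : ℂ) = (p : ℂ) ^ (-(((g.k : ℂ) - 1) / 2)) := by
    rw [Complex.ofReal_cpow (Nat.cast_nonneg p)]
    push_cast
    rfl
  have e2 : (p : ℂ) ^ (-(((g.k : ℂ) - 1) / 2)) * (p : ℂ) ^ (-s) =
      (p : ℂ) ^ g.twist i * (p : ℂ) ^ (-(s + i / 2)) := by
    rw [← Complex.cpow_natCast, ← Complex.cpow_add _ _ hp0, ← Complex.cpow_add _ _ hp0, htw]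
    congr 1
    ring
  have e3 : ((p : ℂ) ^ (-s)) ^ 2 = (p : ℂ) ^ i * ((p : ℂ) ^ (-(s + i / 2))) ^ 2 := by
    rw [← Complex.cpow_natCast (p : ℂ) i, ← Complex.cpow_nat_mul, ← Complex.cpow_nat_mul,
      ← Complex.cpow_add _ _ hp0]
    congr 1
    push_cast
    ring
  unfold Newform.euler nco
  rw [e1, e3, mul_assoc, e2]
  show 1 - a g.f p * _ + _ = _
  ring

theorem single (i : ℕ) (g : {g : Newform // g.k ≤ i + 1 ∧ 2 ∣ i + 1 - g.k}) : ∃ Λ L : ℂ → ℂ, Full 1 Λ ∧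
    (∃ w : ℂ, ‖w‖ = 1 ∧ ∀ s : ℂ, Λ (1 - s) = w * conj (Λ (conj s))) ∧ Differentiable ℂ L ∧
    (∀ s : ℂ, 0 < s.re → Λ s = gfac g.1.N g.1.k s * L s) ∧ ∀ s : ℂ, 1 < s.re →
      HasProd (fun p : Nat.Primes => (g.1.euler i p (((p : ℕ) : ℂ) ^ (-(s + i / 2))))⁻¹) (L s) := by
  have : NeZero g.1.N := ⟨by have := g.1.N_pos; omega⟩
  obtain ⟨η, hf⟩ := conv g.1
  obtain ⟨Λ, L, hF, hfe, hd, he, hp⟩ := full_newfE g.1.k_pos hf
  refine ⟨Λ, L, hF, hfe, hd, he, fun s hs => (hp s hs).congr_fun fun p => ?_⟩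
  rw [euler_eq g.1 g.2.1 g.2.2 p.2.pos]

/-- the gamma factors -/
theorem gam_arith (i : ℕ) (l : List Newform) (hl : ∀ g ∈ l, g.k ≤ i + 1 ∧ 2 ∣ i + 1 - g.k) (s : ℂ) :
    (((((l.map Newform.N).prod : ℕ) : ℝ) ^ ((i : ℝ) / 4) : ℝ) : ℂ) *
      (l.map fun g => gfac g.N g.k (s - i / 2)).prod =
    (((l.map Newform.N).prod : ℕ) : ℂ) ^ (s / 2) * (l.map fun g => Gammaℂ (s - g.twist i)).prod := by
  induction l with
  | nil => simp
  | cons g l ih =>
    have ih' := ih fun g hg => hl g (List.mem_cons_of_mem _ hg)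
    obtain ⟨h1, h2⟩ := hl g List.mem_cons_self
    have htw : (g.twist i : ℂ) = (i + 1 - g.k) / 2 := by
      unfold Newform.twist
      rw [Nat.cast_div h2 (by norm_num), Nat.cast_sub h1]
      push_cast
      rfl
    have hN := g.N_pos
    have hN0 : (g.N : ℂ) ≠ 0 := by exact_mod_cast (show g.N ≠ 0 by omega)
    simp only [List.map_cons, List.prod_cons]
    obtain ⟨A, hA⟩ : ∃ A : ℕ, A = (l.map Newform.N).prod := ⟨_, rfl⟩
    rw [← hA] at ih' ⊢
    have e1 : (((g.N * A : ℕ) : ℝ) ^ ((i : ℝ) / 4) : ℝ) = (g.N : ℝ) ^ ((i : ℝ) / 4) * (A : ℝ) ^ ((i : ℝ) / 4) := by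
      rw [Nat.cast_mul, Real.mul_rpow (Nat.cast_nonneg _) (Nat.cast_nonneg _)]
    have e2 : (((g.N : ℝ) ^ ((i : ℝ) / 4) : ℝ) : ℂ) = (g.N : ℂ) ^ ((i : ℂ) / 4) := by
      rw [Complex.ofReal_cpow (Nat.cast_nonneg _)]
      push_cast
      rfl
    have e3 : (g.N : ℂ) ^ (s / 2) = (g.N : ℂ) ^ ((i : ℂ) / 4) * (g.N : ℂ) ^ ((s - i / 2) / 2) := by
      rw [← Complex.cpow_add _ _ hN0]
      congr 1
      ring
    have e4 : gfac g.N g.k (s - i / 2) = (g.N : ℂ) ^ ((s - i / 2) / 2) * Gammaℂ (s - g.twist i) := by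
      unfold gfac
      rw [← Complex.Gammaℝ_mul_Gammaℝ_add_one, htw]
      congr 3
      · ring
      · ring
    rw [e1, Complex.ofReal_mul, e2, e4, Nat.cast_mul, Complex.natCast_mul_natCast_cpow, e3]
    calc _ = (g.N : ℂ) ^ ((i : ℂ) / 4) * (g.N : ℂ) ^ ((s - i / 2) / 2) * Gammaℂ (s - g.twist i) *
        ((((A : ℝ) ^ ((i : ℝ) / 4) : ℝ) : ℂ) * (l.map fun g => gfac g.N g.k (s - i / 2)).prod) := by ring
      _ = _ := by rw [ih']; ring

theorem exists_hw {N i : ℕ} {R : ℕ → ℕ → Multiset ℂ} {l : List Newform} (h : Attached N i R l) :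
    ∃ (c : ℝ) (Λ₀ F : ℂ → ℂ), 0 < c ∧ Full (l.length : ℝ) Λ₀ ∧
      IsCompleted N i R l F (fun s => c * Λ₀ (s - i / 2)) := by
  obtain ⟨l', hl'⟩ : ∃ l' : List {g : Newform // g.k ≤ i + 1 ∧ 2 ∣ i + 1 - g.k}, l'.map Subtype.val = l := by
    refine ⟨l.attach.map fun g => ⟨g.1, h.weight g.1 g.2⟩, ?_⟩
    rw [List.map_map]
    exact List.attach_map_subtype_val l
  have hne : l' ≠ [] := by
    rintro rfl
    exact h.ne hl'.symm
  obtain ⟨Λ, L, hF, ⟨w, hw, hfe⟩, hd, he, hp⟩ := full_listE (fun g : {g : Newform // g.k ≤ i + 1 ∧ 2 ∣ i + 1 - g.k} => g.1.N)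
    (fun g => g.1.k) (fun g s p => (g.1.euler i p (((p : ℕ) : ℂ) ^ (-(s + i / 2))))⁻¹) (single i) l' hne
  have hlen : l'.length = l.length := by rw [← hl', List.length_map]
  rw [hlen] at hF
  have hlev : ∀ g ∈ l, 1 ≤ g.N := fun g _ => g.N_pos
  have hA : 1 ≤ (l.map Newform.N).prod := by
    clear hl' hF hlen h
    induction l with
    | nil => simp
    | cons a l ih =>
      rw [List.map_cons, List.prod_cons]
      exact Nat.mul_pos a.N_pos (ih fun g hg => hlev g (List.mem_cons_of_mem _ hg))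
  have hA0 : (0 : ℝ) < ((l.map Newform.N).prod : ℕ) := by exact_mod_cast hA
  refine ⟨(((l.map Newform.N).prod : ℕ) : ℝ) ^ ((i : ℝ) / 4), Λ, fun s => L (s - i / 2), Real.rpow_pos_of_pos hA0 _,
    hF, ?_⟩
  refine ⟨hd.comp (by fun_prop), (hF.cls.diff.comp (by fun_prop)).const_mul _, fun s hs => ?_, fun s hs => ?_,
    w, hw, fun s => ?_⟩
  · have h1 : 1 < (s - i / 2).re := by
      have : (s - i / 2).re = s.re - (i : ℝ) / 2 := by
        rw [sub_re, show ((i : ℂ) / 2) = (((i : ℝ) / 2 : ℝ) : ℂ) by push_cast; rfl, ofReal_re]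
      rw [this]
      linarith
    refine (hp _ h1).congr_fun fun p => ?_
    rw [prod_inv_list]
    have e1 : (l'.map fun g => g.1.euler i p (((p : ℕ) : ℂ) ^ (-(s - i / 2 + i / 2)))).prod =
        (l.map fun g => g.euler i p (((p : ℕ) : ℂ) ^ (-s))).prod := by
      rw [sub_add_cancel, ← hl', List.map_map]
      rfl
    rw [e1]
    split_ifs with hpN
    · rfl
    · rw [h.factor p p.2 hpN]
  · have h1 : 0 < (s - i / 2).re := by
      have : (s - i / 2).re = s.re - (i : ℝ) / 2 := by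
        rw [sub_re, show ((i : ℂ) / 2) = (((i : ℝ) / 2 : ℝ) : ℂ) by push_cast; rfl, ofReal_re]
      rw [this]
      linarith
    rw [he _ h1, ← gam_arith i l h.weight]
    have e1 : (l'.map fun g => gfac g.1.N g.1.k (s - i / 2)).prod =
        (l.map fun g => gfac g.N g.k (s - i / 2)).prod := by
      rw [← hl', List.map_map]
      rfl
    rw [e1]
    ring
  · have e : ((i : ℂ) + 1 - s - i / 2) = 1 - (s - i / 2) := by ring
    rw [e, hfe, map_mul, Complex.conj_ofReal, map_sub]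
    have e2 : (conj ((i : ℂ) / 2)) = i / 2 := by
      rw [map_div₀, Complex.conj_natCast, map_ofNat]
    rw [e2]
    ring

theorem uniq_hw {N i : ℕ} {R : ℕ → ℕ → Multiset ℂ} {l : List Newform} {F Λ F' Λ' : ℂ → ℂ}
    (h : IsCompleted N i R l F Λ) (h' : IsCompleted N i R l F' Λ') : F' = F ∧ Λ' = Λ := by
  have h1 : F' = F := by
    refine Pool.Agent.W355.UN.Pk.uniq (G := F) h.entire_F h'.entire_F ⟨0, fun s _ => rfl⟩
      ⟨(i : ℝ) / 2 + 2, fun s hs => ?_⟩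
    exact (h'.good s (by linarith)).unique (h.good s (by linarith))
  refine ⟨h1, ?_⟩
  refine Pool.Agent.W355.UN.Pk.uniq (G := Λ) h.entire h'.entire ⟨0, fun s _ => rfl⟩
      ⟨(i : ℝ) / 2 + 2, fun s hs => ?_⟩
  rw [h'.eq s (by linarith), h.eq s (by linarith), h1]

end Pool.Agent.Q246.HW
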