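import Mathlib

/-!
# Hasse-Weil L-functions and newforms: definitions

`X` is a proper smooth scheme over `ℤ[1/N]` (`N ≥ 1`) of relative dimension `d`.  By Deligne's theorem the
numbers of points of `X` over the finite fields determine the polynomials `P_i(X(p), T)`, `p ∤ N`,
`0 ≤ i ≤ 2d`, as the polynomials whose reciprocal roots have absolute value `p^(i/2)`; the L-function of `H^i`
is `L(i; X, s) = ∏_{p ∤ N} P_i(X(p), p^(-s))⁻¹`.  We consider the case that `H^i` is a sum of Galois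
representations attached to holomorphic newforms (of weights `i + 1 - 2j`, twisted `j` times).
-/

set_option autoImplicit false

open Complex UpperHalfPlane MatrixGroups CongruenceSubgroup
open AlgebraicGeometry CategoryTheory
open scoped ComplexConjugate

namespace Pool.Agent.Q246.HW

/-! ### Newforms -/

/-- The `n`-th Fourier coefficient `a(n)` of `f(τ) = ∑ a(n) e^(2πinτ)`. -/
noncomputable def a {N k : ℕ} (f : CuspForm (Gamma1 N : Subgroup (GL (Fin 2) ℝ)) (k : ℤ)) (n : ℕ) : ℂ :=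
  (qExpansion 1 f).coeff n

/-- `f` is a newform of weight `k`, level `N` and nebentypus `ψ`; the properties that are used:
`f(γτ) = ψ(d) (cτ+d)^k f(τ)` for `γ = (a b; c d)` in `Γ₀(N)`, `a(1) = 1`, the Hecke relations
`a(mn) = a(m) a(n)` for coprime `m`, `n` and `a(p^(j+2)) = a(p) a(p^(j+1)) - ψ(p) p^(k-1) a(p^j)`,
`conj a(n) = conj ψ(n) a(n)` for `n` prime to `N`, and the Fricke involution `τ ↦ -1 / (N τ)` maps `f` to a
multiple, by a number `w` of absolute value one, of the form `τ ↦ conj f(-conj τ)` with the conjugate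
Fourier coefficients. -/
structure IsNewform (N k : ℕ) (ψ : DirichletCharacter ℂ N)
    (f : CuspForm (Gamma1 N : Subgroup (GL (Fin 2) ℝ)) (k : ℤ)) : Prop where
  neb : ∀ γ : SL(2, ℤ), γ ∈ Gamma0 N → ∀ τ : ℍ,
    f (γ • τ) = ψ ((γ 1 1 : ℤ) : ZMod N) * denom γ τ ^ k * f τ
  one : a f 1 = 1
  mul : ∀ m n : ℕ, Nat.Coprime m n → a f (m * n) = a f m * a f n
  pow : ∀ p j : ℕ, p.Prime → a f (p ^ (j + 2)) = a f p * a f (p ^ (j + 1)) -
    ψ (p : ZMod N) * (p : ℂ) ^ (k - 1) * a f (p ^ j)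
  real : ∀ n : ℕ, Nat.Coprime n N → conj (a f n) = conj (ψ (n : ZMod N)) * a f n
  fricke : ∃ w : ℂ, ‖w‖ = 1 ∧
    ∀ τ τ' τ'' : ℍ, (τ' : ℂ) * ((N : ℂ) * (τ : ℂ)) = -1 → (τ'' : ℂ) = -conj (τ : ℂ) →
      f τ' = w * ((Real.sqrt N : ℝ) * (τ : ℂ)) ^ k * conj (f τ'')

/-- A newform `f` of some level `N ≥ 1`, weight `k ≥ 1` and nebentypus `ψ`. -/
structure Newform where
  /-- the level -/
  N : ℕ
  /-- the weight -/
  k : ℕ
  N_pos : 1 ≤ N
  k_pos : 1 ≤ k
  /-- the nebentypus -/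
  ψ : DirichletCharacter ℂ N
  /-- the form -/
  f : CuspForm (Gamma1 N : Subgroup (GL (Fin 2) ℝ)) (k : ℤ)
  isNewform : IsNewform N k ψ f

/-- The number `j = (i + 1 - k) / 2` of Tate twists which brings a newform of weight `k` into `H^i`. -/
def Newform.twist (g : Newform) (i : ℕ) : ℕ := (i + 1 - g.k) / 2

/-- The Euler polynomial at `p` of the newform, twisted `j = (i + 1 - k) / 2` times:
`1 - a(p) p^j T + ψ(p) p^i T²`. -/
noncomputable def Newform.euler (g : Newform) (i p : ℕ) (T : ℂ) : ℂ :=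
  1 - a g.f p * (p : ℂ) ^ g.twist i * T + g.ψ (p : ZMod g.N) * (p : ℂ) ^ i * T ^ 2

/-! ### Schemes over `ℤ[1/N]` -/

/-- The number of points of `X` over the field with `p^n` elements. -/
noncomputable def points (X : Scheme.{0}) (p n : ℕ) [Fact p.Prime] : ℕ :=
  Nat.card (Spec (CommRingCat.of (GaloisField p n)) ⟶ X)

/-- `R p i` is, for the primes `p ∤ N` and `0 ≤ i ≤ 2d`, the multiset of the reciprocal roots of
`P_i(X(p), T)`: they have absolute value `p^(i/2)`, and the number of points of `X` over the field with `p^n`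
elements is the alternating sum of the sums of their `n`-th powers, for all `n ≥ 1` (these properties
determine `R p i`). -/
structure IsWeil (X : Scheme.{0}) (N d : ℕ) (R : ℕ → ℕ → Multiset ℂ) : Prop where
  weight : ∀ p i : ℕ, p.Prime → ¬ p ∣ N → ∀ α ∈ R p i, ‖α‖ = (p : ℝ) ^ ((i : ℝ) / 2)
  count : ∀ (p : ℕ) [Fact p.Prime], ¬ p ∣ N → ∀ n : ℕ, 1 ≤ n → (points X p n : ℂ) =
    ∑ i ∈ Finset.range (2 * d + 1), (-1) ^ i * ((R p i).map fun α => α ^ n).sum

/-- The cohomology `H^i` with the reciprocal roots `R` is attached to the nonempty list `l` of newforms: their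
weights `k` satisfy `k ≤ i + 1`, `k ≡ i + 1 mod 2`, the primes dividing their levels divide `N`, and
`P_i(X(p), T)` is the product of their Euler polynomials, twisted `(i + 1 - k) / 2` times, for all primes
`p ∤ N`. -/
structure Attached (N i : ℕ) (R : ℕ → ℕ → Multiset ℂ) (l : List Newform) : Prop where
  ne : l ≠ []
  weight : ∀ g ∈ l, g.k ≤ i + 1 ∧ 2 ∣ i + 1 - g.k
  level : ∀ g ∈ l, ∀ p : ℕ, p.Prime → p ∣ g.N → p ∣ N
  factor : ∀ p : ℕ, p.Prime → ¬ p ∣ N → ∀ T : ℂ,
    ((R p i).map fun α => 1 - α * T).prod = (l.map fun g => g.euler i p T).prod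

/-- The L-function of `H^i` (`F`) and its completed L-function (`Λ`).  `F` is entire, for `Re s > i/2 + 1` it
is the Euler product with the factors `P_i(X(p), p^(-s))⁻¹` for `p ∤ N` and the inverse product of the
Euler polynomials of the newforms for `p ∣ N`.  `Λ` is entire,
`Λ(s) = A^(s/2) ∏ Γ_ℂ(s - j) F(s)` for `Re s > i/2`, the product over the newforms of the list with
`j = (i + 1 - k) / 2` and `Γ_ℂ(s) = 2 (2π)^(-s) Γ(s)`, `A` the product of the levels; and
`Λ(i + 1 - s) = w conj Λ(conj s)`, `|w| = 1`. -/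
structure IsCompleted (N i : ℕ) (R : ℕ → ℕ → Multiset ℂ) (l : List Newform) (F Λ : ℂ → ℂ) : Prop where
  entire_F : Differentiable ℂ F
  entire : Differentiable ℂ Λ
  good : ∀ s : ℂ, (i : ℝ) / 2 + 1 < s.re → HasProd (fun p : Nat.Primes =>
    (if (p : ℕ) ∣ N then (l.map fun g => g.euler i p (((p : ℕ) : ℂ) ^ (-s))).prod
      else ((R p i).map fun α => 1 - α * ((p : ℕ) : ℂ) ^ (-s)).prod)⁻¹) (F s)
  eq : ∀ s : ℂ, (i : ℝ) / 2 < s.re → Λ s = (((l.map Newform.N).prod : ℕ) : ℂ) ^ (s / 2) *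
    (l.map fun g => Gammaℂ (s - g.twist i)).prod * F s
  fe : ∃ w : ℂ, ‖w‖ = 1 ∧ ∀ s : ℂ, Λ (i + 1 - s) = w * conj (Λ (conj s))

end Pool.Agent.Q246.HW
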